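import Pool.Agent.Y922.KB.Stm2

set_option autoImplicit false

/-! KB-LINT: a weighted integral is negative (helper436) -/

namespace Pool.Agent.Y436.KB

open Complex Metric MeasureTheory Set
open scoped Real
open Pool.Agent.Y922.KB

lemma key1 (c : ℝ) (z : ℂ) :
    ‖1 - (c : ℂ) * z‖ ^ 2 - ‖z - c‖ ^ 2 = (1 - ‖z‖ ^ 2) * (1 - c ^ 2) := by
  rw [← Complex.normSq_eq_norm_sq, ← Complex.normSq_eq_norm_sq, ← Complex.normSq_eq_norm_sq,
    Complex.normSq_apply, Complex.normSq_apply, Complex.normSq_apply]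
  simp only [Complex.sub_re, Complex.sub_im, Complex.mul_re, Complex.mul_im, Complex.one_re,
    Complex.one_im, Complex.ofReal_re, Complex.ofReal_im]
  ring

lemma ratio_le (c : ℝ) (hc0 : 0 ≤ c) (hc1 : c ≤ 1) (z : ℂ) (hz : ‖z‖ ≤ 1) :
    ‖z - c‖ ≤ ‖1 - (c : ℂ) * z‖ := by
  have h1 := key1 c z
  have h2 : 0 ≤ (1 - ‖z‖ ^ 2) * (1 - c ^ 2) := by
    apply mul_nonneg
    · nlinarith [norm_nonneg z]
    · nlinarith
  apply le_of_sq_le_sq _ (norm_nonneg _)
  linarith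

lemma Wt_nonneg (c p : ℝ) (z : ℂ) : 0 ≤ Wt c p z :=
  Real.rpow_nonneg (div_nonneg (norm_nonneg _) (norm_nonneg _)) _

lemma Wt_le_one (c p : ℝ) (hc0 : 0 ≤ c) (hc1 : c ≤ 1) (hp : 2 ≤ p) (z : ℂ) (hz : ‖z‖ ≤ 1) :
    Wt c p z ≤ 1 := by
  apply Real.rpow_le_one (div_nonneg (norm_nonneg _) (norm_nonneg _))
  · exact div_le_one_of_le₀ (ratio_le c hc0 hc1 z hz) (norm_nonneg _)
  · linarith

lemma Wt_meas (c p : ℝ) : Measurable (Wt c p) := by
  unfold Wt
  fun_prop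

/-- the lower bound for the weight on the left half plane -/
lemma Wt_ge (ε p : ℝ) (hε : 0 < ε) (hε2 : ε ≤ 1 / 32) (hp : 2 ≤ p) (hpε : p * ε ^ 2 ≤ 1 / 64)
    (z : ℂ) (hz1 : 1 - 16 * ε ≤ ‖z‖) (hz2 : ‖z‖ ≤ 1) (hz3 : z.re ≤ 0) :
    1 / 3 ≤ Wt (1 - ε) p z := by
  set c : ℝ := 1 - ε with hc
  have hc0 : 0 < c := by linarith
  have hc1 : c ≤ 1 := by linarith
  have h1 := key1 c z
  have hD : 1 ≤ ‖1 - (c : ℂ) * z‖ := by
    have h2 : (1 - (c : ℂ) * z).re ≤ ‖1 - (c : ℂ) * z‖ := Complex.re_le_norm _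
    have h3 : (1 - (c : ℂ) * z).re = 1 - c * z.re := by
      simp [Complex.sub_re, Complex.mul_re]
    rw [h3] at h2
    nlinarith
  have hD2 : 1 ≤ ‖1 - (c : ℂ) * z‖ ^ 2 := one_le_pow₀ hD
  have hx0 : 0 ≤ (1 - ‖z‖ ^ 2) * (1 - c ^ 2) := by
    apply mul_nonneg
    · nlinarith [norm_nonneg z]
    · nlinarith
  have hx1 : (1 - ‖z‖ ^ 2) * (1 - c ^ 2) ≤ 64 * ε ^ 2 := by
    have h3 : 1 - ‖z‖ ^ 2 ≤ 32 * ε := by nlinarith [norm_nonneg z]
    have h4 : 1 - c ^ 2 ≤ 2 * ε := by rw [hc]; nlinarith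
    have h5 : 0 ≤ 1 - c ^ 2 := by nlinarith
    calc (1 - ‖z‖ ^ 2) * (1 - c ^ 2) ≤ (32 * ε) * (1 - c ^ 2) := mul_le_mul_of_nonneg_right h3 h5
      _ ≤ (32 * ε) * (2 * ε) := mul_le_mul_of_nonneg_left h4 (by positivity)
      _ = 64 * ε ^ 2 := by ring
  set y : ℝ := 64 * ε ^ 2 with hy
  have hy0 : 0 ≤ y := by positivity
  have hy1 : y ≤ 1 / 2 := by
    rw [hy]
    nlinarith
  have hrat : Real.exp (-y) ≤ ‖z - c‖ / ‖1 - (c : ℂ) * z‖ := by
    have hDpos : 0 < ‖1 - (c : ℂ) * z‖ := by linarith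
    rw [le_div_iff₀ hDpos]
    apply le_of_sq_le_sq _ (norm_nonneg _)
    have e1 : Real.exp (-y) ^ 2 ≤ 1 - y := by
      have e2 : Real.exp (-y) ^ 2 = (Real.exp (2 * y))⁻¹ := by
        rw [← Real.exp_neg, ← Real.exp_nat_mul]
        congr 1
        push_cast
        ring
      rw [e2]
      have e3 : 1 + 2 * y ≤ Real.exp (2 * y) := by
        have := Real.add_one_le_exp (2 * y)
        linarith
      have e4 : (Real.exp (2 * y))⁻¹ ≤ (1 + 2 * y)⁻¹ := by
        apply inv_anti₀ _ e3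
        linarith
      refine e4.trans ?_
      rw [inv_le_iff_one_le_mul₀ (by linarith)]
      nlinarith
    have e5 : (Real.exp (-y) * ‖1 - (c : ℂ) * z‖) ^ 2 ≤ (1 - y) * ‖1 - (c : ℂ) * z‖ ^ 2 := by
      rw [mul_pow]
      exact mul_le_mul_of_nonneg_right e1 (by positivity)
    refine e5.trans ?_
    have e6 : y ≤ y * ‖1 - (c : ℂ) * z‖ ^ 2 := by nlinarith
    nlinarith
  have h7 : Real.exp (-y) ^ (p - 2) ≤ Wt c p z := by
    unfold Wt
    exact Real.rpow_le_rpow (Real.exp_pos _).le hrat (by linarith)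
  refine le_trans ?_ h7
  rw [← Real.exp_mul]
  have h8 : -1 ≤ -y * (p - 2) := by
    rw [hy]
    nlinarith [sq_nonneg ε]
  have h9 : Real.exp (-1) ≤ Real.exp (-y * (p - 2)) := Real.exp_le_exp.2 h8
  refine le_trans ?_ h9
  rw [Real.exp_neg, one_div]
  apply inv_anti₀ (Real.exp_pos 1)
  have := Real.exp_one_lt_d9
  linarith

lemma vol_ball {r : ℝ} (hr : 0 ≤ r) : volume.real (ball (0 : ℂ) r) = π * r ^ 2 := by
  rw [Measure.real, Complex.volume_ball, ENNReal.toReal_mul, ENNReal.toReal_pow,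
    ENNReal.toReal_ofReal hr]
  rw [mul_comm]
  rfl

lemma vol_diff {r s : ℝ} (hr : 0 ≤ r) (hrs : r ≤ s) :
    volume.real (ball (0 : ℂ) s \ ball 0 r) = π * s ^ 2 - π * r ^ 2 := by
  rw [measureReal_diff (ball_subset_ball hrs) measurableSet_ball, vol_ball (hr.trans hrs),
    vol_ball hr]

/-- the half annulus -/
def Sx (ε : ℝ) : Set ℂ := (ball 0 (1 - 8 * ε) \ ball 0 (1 - 16 * ε)) ∩ {z | z.re ≤ 0}

lemma Sx_meas (ε : ℝ) : MeasurableSet (Sx ε) :=
  (measurableSet_ball.diff measurableSet_ball).inter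
    (measurableSet_le Complex.measurable_re measurable_const)

lemma Sx_vol (ε : ℝ) (hε : 0 < ε) (hε2 : ε ≤ 1 / 32) : 5 * π * ε ≤ volume.real (Sx ε) := by
  have h1 : ball (0 : ℂ) (1 - 8 * ε) \ ball 0 (1 - 16 * ε) ⊆ Sx ε ∪ -Sx ε := by
    intro z hz
    by_cases h : z.re ≤ 0
    · exact Or.inl ⟨hz, h⟩
    · right
      rw [Set.mem_neg]
      refine ⟨?_, ?_⟩
      · simpa using hz
      · show (-z).re ≤ 0
        rw [Complex.neg_re]
        linarith
  have hfin : volume (Sx ε) ≠ ⊤ :=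
    ((measure_mono (fun z hz => hz.1.1)).trans_lt measure_ball_lt_top).ne
  have hneg : volume.real (-Sx ε) = volume.real (Sx ε) := by
    rw [Measure.real, Measure.real, Measure.measure_neg]
  have hfin2 : volume (-Sx ε) ≠ ⊤ := by
    rw [Measure.measure_neg]
    exact hfin
  have h2 : volume.real (ball (0 : ℂ) (1 - 8 * ε) \ ball 0 (1 - 16 * ε)) ≤
      volume.real (Sx ε) + volume.real (-Sx ε) :=
    (measureReal_mono h1 (measure_union_lt_top hfin.lt_top hfin2.lt_top).ne).trans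
      (measureReal_union_le _ _)
  rw [vol_diff (by linarith) (by linarith), hneg] at h2
  have h3 : 10 * π * ε ≤ π * (1 - 8 * ε) ^ 2 - π * (1 - 16 * ε) ^ 2 := by
    have h4 : π * (1 - 8 * ε) ^ 2 - π * (1 - 16 * ε) ^ 2 = π * (ε * (16 - 192 * ε)) := by ring
    have h5 : 10 * π * ε = π * (ε * 10) := by ring
    rw [h4, h5]
    apply mul_le_mul_of_nonneg_left _ Real.pi_pos.le
    apply mul_le_mul_of_nonneg_left _ hε.le
    linarith
  linarith

theorem t_LINT : S_LINT := by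
  intro ε p hε hε2 hp hpε
  have hc0 : (0 : ℝ) < 1 - ε := by linarith
  have hc1 : (1 : ℝ) - ε ≤ 1 := by linarith
  let A : Set ℂ := ball 0 1 \ ball 0 (1 - ε)
  have hA : MeasurableSet A := measurableSet_ball.diff measurableSet_ball
  let g : ℂ → ℝ := fun z => A.indicator (fun _ => 2 * ε) z - (Sx ε).indicator (fun _ => 7 / 3 * ε) z
  have hSB : Sx ε ⊆ ball 0 1 := fun z hz => ball_subset_ball (by linarith) hz.1.1
  have hf : IntegrableOn (fun z => Wt (1 - ε) p z * (‖z‖ ^ 2 - (1 - ε) ^ 2)) (ball (0 : ℂ) 1) := by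
    refine Measure.integrableOn_of_bounded (M := 1) measure_ball_lt_top.ne ?_ ?_
    · apply Measurable.aestronglyMeasurable
      apply (Wt_meas _ _).mul
      fun_prop
    · refine (ae_restrict_iff' measurableSet_ball).2 (Filter.Eventually.of_forall fun z hz => ?_)
      rw [mem_ball_zero_iff] at hz
      have h1 := Wt_nonneg (1 - ε) p z
      have h2 := Wt_le_one (1 - ε) p hc0.le hc1 hp z hz.le
      have h3 : |‖z‖ ^ 2 - (1 - ε) ^ 2| ≤ 1 := by
        rw [abs_le]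
        constructor
        · nlinarith [norm_nonneg z]
        · nlinarith [norm_nonneg z]
      rw [Real.norm_eq_abs, abs_mul, abs_of_nonneg h1]
      calc Wt (1 - ε) p z * |‖z‖ ^ 2 - (1 - ε) ^ 2| ≤ 1 * 1 :=
            mul_le_mul h2 h3 (abs_nonneg _) zero_le_one
        _ = 1 := one_mul 1
  have hg1 : IntegrableOn (A.indicator (fun _ => 2 * ε)) (ball (0 : ℂ) 1) :=
    (integrableOn_const measure_ball_lt_top.ne).indicator hA
  have hg2 : IntegrableOn ((Sx ε).indicator (fun _ => 7 / 3 * ε)) (ball (0 : ℂ) 1) :=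
    (integrableOn_const measure_ball_lt_top.ne).indicator (Sx_meas ε)
  have hle : ∫ z in ball (0 : ℂ) 1, Wt (1 - ε) p z * (‖z‖ ^ 2 - (1 - ε) ^ 2) ≤
      ∫ z in ball (0 : ℂ) 1, g z := by
    apply setIntegral_mono_on hf (hg1.sub hg2) measurableSet_ball
    intro z hz
    rw [mem_ball_zero_iff] at hz
    have h1 := Wt_nonneg (1 - ε) p z
    have h2 := Wt_le_one (1 - ε) p hc0.le hc1 hp z hz.le
    by_cases hzA : z ∈ A
    · have hzS : z ∉ Sx ε := by
        intro h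
        have h3 := h.1.1
        have h4 := hzA.2
        rw [mem_ball_zero_iff] at h3 h4
        linarith
      show _ ≤ A.indicator (fun _ => 2 * ε) z - (Sx ε).indicator (fun _ => 7 / 3 * ε) z
      rw [indicator_of_mem hzA, indicator_of_notMem hzS, sub_zero]
      have h5 : ‖z‖ ^ 2 - (1 - ε) ^ 2 ≤ 2 * ε := by nlinarith [norm_nonneg z]
      have h6 : 0 ≤ ‖z‖ ^ 2 - (1 - ε) ^ 2 := by
        have h4 := hzA.2
        rw [mem_ball_zero_iff, not_lt] at h4
        nlinarith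
      calc Wt (1 - ε) p z * (‖z‖ ^ 2 - (1 - ε) ^ 2) ≤ 1 * (‖z‖ ^ 2 - (1 - ε) ^ 2) :=
            mul_le_mul_of_nonneg_right h2 h6
        _ ≤ 2 * ε := by linarith
    · have hzc : ‖z‖ < 1 - ε := by
        by_contra hcon
        exact hzA ⟨mem_ball_zero_iff.2 hz, fun h => hcon (mem_ball_zero_iff.1 h)⟩
      show _ ≤ A.indicator (fun _ => 2 * ε) z - (Sx ε).indicator (fun _ => 7 / 3 * ε) z
      rw [indicator_of_notMem hzA]
      by_cases hzS : z ∈ Sx ε
      · rw [indicator_of_mem hzS]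
        have h3 := hzS.1.1
        have h4 := hzS.1.2
        rw [mem_ball_zero_iff] at h3 h4
        rw [not_lt] at h4
        have h5 := Wt_ge ε p hε hε2 hp hpε z h4 hz.le hzS.2
        have h6 : ‖z‖ ^ 2 - (1 - ε) ^ 2 ≤ -(7 * ε) := by
          have h7 : (1 - ε) ^ 2 - ‖z‖ ^ 2 = (1 - ε - ‖z‖) * (1 - ε + ‖z‖) := by ring
          have h8 : 7 * ε ≤ 1 - ε - ‖z‖ := by linarith
          have h9 : 1 ≤ 1 - ε + ‖z‖ := by linarith
          nlinarith
        nlinarith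
      · rw [indicator_of_notMem hzS]
        have h6 : ‖z‖ ^ 2 - (1 - ε) ^ 2 ≤ 0 := by nlinarith [norm_nonneg z]
        nlinarith
  have hint : ∫ z in ball (0 : ℂ) 1, g z = volume.real A * (2 * ε) -
      volume.real (Sx ε) * (7 / 3 * ε) := by
    have h1 : ∫ z in ball (0 : ℂ) 1, g z = (∫ z in ball (0 : ℂ) 1, A.indicator (fun _ => 2 * ε) z) -
        ∫ z in ball (0 : ℂ) 1, (Sx ε).indicator (fun _ => 7 / 3 * ε) z := integral_sub hg1 hg2
    rw [h1, setIntegral_indicator hA, setIntegral_indicator (Sx_meas ε), setIntegral_const,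
      setIntegral_const, inter_eq_self_of_subset_right diff_subset,
      inter_eq_self_of_subset_right hSB, smul_eq_mul, smul_eq_mul]
  have hAv : volume.real A ≤ 2 * π * ε := by
    have h1 : volume.real A = π * 1 ^ 2 - π * (1 - ε) ^ 2 := vol_diff hc0.le hc1
    rw [h1]
    nlinarith [Real.pi_pos, mul_pos Real.pi_pos (mul_pos hε hε)]
  have hSv := Sx_vol ε hε hε2
  rw [hint] at hle
  have h1 : volume.real A * (2 * ε) ≤ 2 * π * ε * (2 * ε) :=
    mul_le_mul_of_nonneg_right hAv (by linarith)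
  have h2 : 5 * π * ε * (7 / 3 * ε) ≤ volume.real (Sx ε) * (7 / 3 * ε) :=
    mul_le_mul_of_nonneg_right hSv (by linarith)
  have h3 : 0 < π * (ε * ε) := mul_pos Real.pi_pos (mul_pos hε hε)
  nlinarith

end Pool.Agent.Y436.KB
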